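import Pool.Agent.CycShift.Own

set_option autoImplicit false

/-!
# Permutations with forbidden cyclic shifts
-/

namespace Pool.Agent.Results.MP_ca7d6d_co.CyclicShifts

open Pool.Agent.CycShift.Own

/-- For every `N` there is `c` such that every `N`-admissible set of permutations of `[n]` has at most
`2 ^ (c n)` members. More exactly, if a set `P` of permutations of `[n]` has more than `2 ^ (c n)`
members, then there is a set `X` of `N` positions such that `P` shows at every subset of `X` all
patterns of the type increasing, decreasing, increasing, or at every subset of `X` all patterns of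
the type decreasing, increasing, decreasing. -/
theorem result (N : ℕ) : ∃ c : ℕ, ∀ (n : ℕ) (P : Finset (Equiv.Perm (Fin n))),
    (Admissible N P → P.card ≤ 2 ^ (c * n)) ∧
    (2 ^ (c * n) < P.card → ∃ X : Finset (Fin n), X.card = N ∧
      ((∀ A ⊆ X, ∀ τ : Fin A.card → ℕ, IncDecInc τ → ∃ π ∈ P, RestrictsTo π A τ) ∨
        (∀ A ⊆ X, ∀ τ : Fin A.card → ℕ, DecIncDec τ → ∃ π ∈ P, RestrictsTo π A τ))) :=
  main N

end Pool.Agent.Results.MP_ca7d6d_co.CyclicShifts
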